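import Pool.Agent.H57.AVG.C1e
import Pool.Agent.H91.LA.Nbxc
import Pool.Agent.H40.FR.Grid

/-!
# Two closed labels of the second place are near on the natural box of an actual chart

`ext_box`: from the unit interval to a larger one in one variable. `nbx_act`: a closed label of `c 2`
over the base and a chart of `c 2` over `c 0`, `c 1` differ by their errors only, up to
`2 ^ ((ε + (K + 1) φ) J)`, on the natural box of the chart of `c 1`.
-/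

set_option autoImplicit false

namespace Pool.TSW95

open Finset Real MvPolynomial
open Pool.Agent.H49.Ent Pool.Agent.H32.Dense Pool.STK Pool.KA Pool.KSAT Pool.K2S Pool.PB Pool.S6C
open Pool.GEN Pool.CHT Pool.RCD Pool.LA91 Pool.D2F2
open Pool.GRD (LbP Pb_mono_pos)
open Pool.LIV (Pb_or25)
open Pool.BFL (Pb)
open Pool.GRW (xr xr_near)
open Pool.AVG57 (LbsE)

/-- **From the unit interval to a larger one**, in one variable. -/
theorem ext_box (K : ℕ) : ∃ C : ℝ, 1 ≤ C ∧ ∀ {m : ℕ} (P : MvPolynomial (Option (Fin m)) ℝ)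
    (a v : Option (Fin m) → ℝ) (M A t : ℝ), P.totalDegree ≤ K → 1 ≤ A → |t| ≤ A →
    (∀ s ∈ Set.Icc (0 : ℝ) 1, |eval (fun o => a o + s * v o) P| ≤ M) →
    |eval (fun o => a o + t * v o) P| ≤ C * A ^ K * M := by
  obtain ⟨C, hC, h⟩ := Pool.Agent.H40.FR.unit_coef K
  refine ⟨(K + 1) * C, by
    have : (0 : ℝ) ≤ K := Nat.cast_nonneg K
    nlinarith, fun {m} P a v M A t hP hA ht hM => ?_⟩
  have hq := natDegree_alp hP a v
  have h1 := h (aeval (lp a v) P) M hq (fun s hs => by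
    rw [eval_alp]
    exact hM s hs)
  have hM0 : 0 ≤ M := (abs_nonneg _).trans (hM 0 ⟨le_rfl, zero_le_one⟩)
  rw [← eval_alp, Polynomial.eval_eq_sum_range' (Nat.lt_succ_of_le hq)]
  refine (Finset.abs_sum_le_sum_abs _ _).trans ?_
  have h2 : ∀ j ∈ Finset.range (K + 1), |(aeval (lp a v) P).coeff j * t ^ j| ≤ C * M * A ^ K := by
    intro j hj
    have hj' : j ≤ K := Nat.lt_succ_iff.1 (Finset.mem_range.1 hj)
    rw [abs_mul, abs_pow]
    refine mul_le_mul (h1 j) ?_ (by positivity) (by positivity)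
    exact (pow_le_pow_left₀ (abs_nonneg _) ht j).trans (pow_le_pow_right₀ hA hj')
  refine (Finset.sum_le_sum h2).trans (le_of_eq ?_)
  rw [Finset.sum_const, Finset.card_range, nsmul_eq_mul]
  push_cast
  ring

variable {m : ℕ}

/-- **Two closed labels of the second place** on the natural box of an actual chart. -/
theorem nbx_act {S : PCl m} {C₀ : ℝ} (htm : TmC S C₀) {c : ℕ → Fin m} {r : ℕ} {w u₁ u₂ : ℝ}
    {s rd : ℕ → ℝ} (hch : Chn S c 1 r w w u₁ s rd) (hr : 2 ≤ r) (hu : w < u₂) (hu2 : u₂ < 1)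
    (K : ℕ) {p : ℕ → ℝ} {φ ε η : ℝ} (E : ℝ) (hφ : 0 ≤ φ) (hp : s 1 - φ ≤ p 1) (hε : 0 < ε)
    (hη : 0 < η) :
    Bas S (fun J F B => ∀ (gm : ℕ → ℕ) (G₀ : PtT F → ℕ → MvPolynomial (Option (Fin m)) ℝ)
      (H : LnT F → ℕ → MvPolynomial (Option (Fin m)) ℝ), LbsE F c 2 K w p s E gm B G₀ H →
      (∀ a l, DepC c l (G₀ a l)) → ∀ (V : Type) (z : PtT F → V) (z' : LnT F → V)
      (G : V → MvPolynomial (Option (Fin m)) ℝ) (P : ℕ),
      LbP F ((range 1).image c) (c 2) K J ⌊w * J⌋₊ P B z z' G →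
      Pb (Pool.Agent.H49.Ent.cond F.p B True) (fun ω => ¬ ∀ b : Option (Fin m) → ℝ,
        |b none - F.t ω| ≤ 1 / 2 ^ ⌊u₂ * J⌋₊ → |b (some (c 0)) - F.x ω (c 0)| ≤ 1 / 2 ^ ⌊u₂ * J⌋₊ →
        |b (some (c 1)) - eval b (G₀ (ptr F J ω) 1)| ≤ 2 / 2 ^ gm 1 →
        |eval b (G (z (ptr F J ω)) - G₀ (ptr F J ω) 2)| ≤
          2 ^ ((ε + (K + 1) * φ) * J) * (1 / 2 ^ gm 2 + 1 / 2 ^ P)) ≤ η) := by
  classical
  obtain ⟨u₃, hu3, hu32⟩ := exists_between hu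
  obtain ⟨C, hC, hext⟩ := ext_box K
  have hC0 : 0 < C := by linarith
  obtain ⟨ε', hε', hεK⟩ : ∃ ε' : ℝ, 0 < ε' ∧ (K + 1) * ε' = ε / 4 := by
    refine ⟨ε / 4 / (K + 1), by positivity, ?_⟩
    field_simp
  obtain ⟨Kc, d, hd, hcls⟩ := nbx_cls htm hch hu3 (hu32.trans hu2) K hε' one_pos
  have hd1 := (hd 1 le_rfl (by omega)).1
  obtain ⟨hs1, -⟩ := hch.s0 1 le_rfl (by omega)
  have hinj := hch.inj
  have hc01 : c 0 ≠ c 1 := fun h => absurd (hinj (show (0 : ℕ) < r by omega)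
    (show (1 : ℕ) < r by omega) h) (by norm_num)
  obtain ⟨η', hη', hη1, hηη⟩ : ∃ η' : ℝ, 0 < η' ∧ η' ≤ 1 ∧ η' + η' ≤ η := by
    refine ⟨min (η / 2) 1, by positivity, min_le_right _ _, ?_⟩
    have : min (η / 2) 1 ≤ η / 2 := min_le_left _ _
    linarith
  -- large `J`
  obtain ⟨J₁, hJ₁⟩ := exists_nat_ge (2 / (u₂ - u₃))
  obtain ⟨J₂, hJ₂⟩ := exists_nat_ge (2 * Real.logb 2 (C * 4 ^ K) / ε)
  refine Bas.mono (max J₁ J₂) ((hcls η' hη' hη1).and (Pool.GRW.tmc_bas htm one_pos)) ?_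
  rintro J hJ F B ⟨⟨V₀, z₀, z₀', g, hg1, -, -, hg4⟩, hB, -⟩ gm G₀ H hL hdep V z z' G P hG
  have hJ0 : (0 : ℝ) ≤ J := Nat.cast_nonneg J
  have hw0 := hch.w0
  have j1 : ⌊u₃ * (J : ℝ)⌋₊ + 1 ≤ ⌊u₂ * (J : ℝ)⌋₊ := by
    have h1 : (J₁ : ℝ) ≤ J := by exact_mod_cast (le_max_left _ _).trans hJ
    have h2 := hJ₁.trans h1
    rw [div_le_iff₀ (by linarith)] at h2
    refine Nat.le_floor ?_
    push_cast
    have h3 := Nat.floor_le (show 0 ≤ u₃ * (J : ℝ) from mul_nonneg (by linarith) hJ0)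
    linarith
  have j2 : ⌊u₂ * (J : ℝ)⌋₊ ≤ J := floor_le hu2.le J
  have j3 : C * 4 ^ K ≤ 2 ^ (ε / 2 * J) := by
    have h1 : (J₂ : ℝ) ≤ J := by exact_mod_cast (le_max_right _ _).trans hJ
    have h2 := hJ₂.trans h1
    rw [div_le_iff₀ hε] at h2
    have h3 : C * 4 ^ K = 2 ^ (Real.logb 2 (C * 4 ^ K)) :=
      (Real.rpow_logb (by norm_num) (by norm_num) (by positivity)).symm
    rw [h3]
    exact Real.rpow_le_rpow_of_exponent_le (by norm_num) (by linarith)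
  -- the two estimates
  have hr1 : 1 < r := by omega
  have e1 : ∀ {k : ℕ}, k ≤ max K (Kc 1) → k ≤ max K (if 1 < r then Kc 1 else 0) := by
    intro k hk
    rw [if_pos hr1]
    exact hk
  have hL1 : LbP F ((range 1).image c) (c 1) (max K (Kc 1)) J ⌊w * J⌋₊ (gm 1) B
      (fun a => G₀ a 1) (fun l => H l 1) (nfp K ((range 1).image c)) := by
    obtain ⟨h1, h2⟩ := hL.lb (l := 1) (by norm_num) (e := 0) le_rfl
    refine ⟨fun v => (h1.deg v).trans (le_max_left _ _), h1.dep, h1.cls, fun ω hω => ?_⟩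
    rw [h2]
    have h3 := hL.pos ω hω 1 (by norm_num)
    unfold Pool.D2R.hgt at h3
    rw [hL.cls ω hω 1 (by norm_num)] at h3
    exact h3
  have hL2 : LbP F ((range 2).image c) (c 2) K J ⌊w * J⌋₊ (gm 2) B
      (fun a => G₀ a 2) (fun l => H l 2) (nfp K ((range 2).image c)) := by
    obtain ⟨h1, h2⟩ := hL.lb (l := 2) (by norm_num) (e := 0) le_rfl
    refine ⟨h1.deg, h1.dep, h1.cls, fun ω hω => ?_⟩
    rw [h2]
    have h3 := hL.pos ω hω 2 (by norm_num)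
    unfold Pool.D2R.hgt at h3
    rw [hL.cls ω hω 2 (by norm_num)] at h3
    exact h3
  have hn1 : ∀ l, nfp K ((range 1).image c) (H l 1) = H l 1 :=
    (hL.lb (l := 1) (by norm_num) (e := 0) le_rfl).2
  have hn2 : ∀ l, nfp K ((range 2).image c) (H l 2) = H l 2 :=
    (hL.lb (l := 2) (by norm_num) (e := 0) le_rfl).2
  have hg1' := hg1 1 le_rfl (by omega)
  have hG1 : LbP F ((range 1).image c) (c 1) (max K (Kc 1)) J ⌊w * J⌋₊ ⌊(s 1 - d 1) * J⌋₊ B z₀ z₀'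
      (fun v => g v 1) := (LbP.of hg1').mono (Finset.Subset.refl _) (le_max_right _ _) le_rfl
  have hG2 : LbP F ((range 2).image c) (c 2) K J ⌊w * J⌋₊ P B z z' G :=
    hG.mono (Finset.image_subset_image (Finset.range_subset_range.2 (by norm_num))) le_rfl le_rfl
  have b1 := hg4 1 le_rfl (by omega) (c 1) (max K (Kc 1)) (gm 1) ⌊(s 1 - d 1) * J⌋₊ _ _ _ _ _ _ _ _
    (e1 le_rfl) hL1 hG1
  have b2 := hg4 2 (by norm_num) hr (c 2) K P (gm 2) _ _ _ _ _ _ _ _ (le_max_left _ _) hG2 hL2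
  -- the probability
  have h0 := (isLaw_cond F.isLaw hB).nonneg
  refine le_trans (Pb_mono_pos h0 ?_) ((Pb_or25 h0 _ _).trans ((add_le_add b1 b2).trans hηη))
  intro ω hω hno
  have hBω : B ω := of_cond_pos hω
  by_contra hcon
  rw [not_or, not_not, not_not] at hcon
  obtain ⟨c1, c2⟩ := hcon
  refine hno fun b h1 h2 h3 => ?_
  have q1 : G₀ (ptr F J ω) 1 = H (slam F ⌊w * J⌋₊ ω) 1 := hL.cls ω hBω 1 (by norm_num)
  have q2 : G₀ (ptr F J ω) 2 = H (slam F ⌊w * J⌋₊ ω) 2 := hL.cls ω hBω 2 (by norm_num)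
  have q3 : z (ptr F J ω) = z' (slam F ⌊w * J⌋₊ ω) := hG.cls ω hBω
  rw [q1] at h3
  rw [q2, q3]
  rw [hn1] at c1
  rw [hn2] at c2
  obtain ⟨g₁, hg₁⟩ : ∃ g₁, g₁ = g (z₀' (slam F ⌊w * J⌋₊ ω)) := ⟨_, rfl⟩
  rw [← hg₁] at c1 c2
  -- the base
  have p2 : ∀ n : ℕ, (0 : ℝ) < 2 ^ n := fun n => by positivity
  have u1 : (1 : ℝ) / 2 ^ ⌊u₂ * (J : ℝ)⌋₊ ≤ 1 / 2 ^ ⌊u₃ * (J : ℝ)⌋₊ :=
    one_div_le_one_div_of_le (p2 _) (pow_le_pow_right₀ (by norm_num) (by omega))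
  have u2 : (1 : ℝ) / 2 ^ ⌊u₂ * (J : ℝ)⌋₊ + 1 / 2 ^ J ≤ 1 / 2 ^ ⌊u₃ * (J : ℝ)⌋₊ := by
    have k1 : (1 : ℝ) / 2 ^ J ≤ 1 / 2 ^ ⌊u₂ * (J : ℝ)⌋₊ :=
      one_div_le_one_div_of_le (p2 _) (pow_le_pow_right₀ (by norm_num) j2)
    have k2 : (1 : ℝ) / 2 ^ ⌊u₂ * (J : ℝ)⌋₊ ≤ 1 / 2 ^ (⌊u₃ * (J : ℝ)⌋₊ + 1) :=
      one_div_le_one_div_of_le (p2 _) (pow_le_pow_right₀ (by norm_num) j1)
    have k3 : (1 : ℝ) / 2 ^ (⌊u₃ * (J : ℝ)⌋₊ + 1) = 1 / 2 ^ ⌊u₃ * (J : ℝ)⌋₊ / 2 := by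
      rw [pow_succ]
      field_simp
    linarith only [k1, k2, k3]
  have xb : |b (some (c 0)) - xr F ω (some (c 0))| ≤ 1 / 2 ^ ⌊u₃ * (J : ℝ)⌋₊ := by
    have k1 := xr_near F ω (some (c 0))
    have k2 : bt F ω (some (c 0)) = F.x ω (c 0) := rfl
    rw [k2] at k1
    have k3 := abs_sub_le (b (some (c 0))) (F.x ω (c 0)) (xr F ω (some (c 0)))
    rw [abs_sub_comm (F.x ω (c 0))] at k3
    linarith only [k1, k3, h2, u2]
  have tb : |b none - F.t ω| ≤ 1 / 2 ^ ⌊u₃ * (J : ℝ)⌋₊ := h1.trans u1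
  -- the chart of the class
  have gdep : ∀ b b' : Option (Fin m) → ℝ, b none = b' none →
      b (some (c 0)) = b' (some (c 0)) → eval b (g₁ 1) = eval b' (g₁ 1) := by
    intro b b' k1 k2
    rw [hg₁]
    refine hg1'.dep _ b b' k1 fun i hi => ?_
    rw [range_one, image_singleton, mem_singleton] at hi
    rw [hi]
    exact k2
  have c1b := c1 b ⟨tb, fun l hl => by
      obtain rfl : l = 0 := by omega
      exact xb, fun i hi hi' => by omega⟩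
  obtain ⟨δ, hδ⟩ : ∃ δ : ℝ, δ = 2 / 2 ^ ⌊(s 1 - d 1) * (J : ℝ)⌋₊ := ⟨_, rfl⟩
  have hδ0 : 0 < δ := by rw [hδ]; positivity
  obtain ⟨M, hM⟩ : ∃ M : ℝ, M = 2 ^ (ε' * (J : ℝ)) * (1 / 2 ^ P + 1 / 2 ^ gm 2) := ⟨_, rfl⟩
  have hM0 : 0 ≤ M := by rw [hM]; positivity
  obtain ⟨Q, hQ⟩ : ∃ Q, Q = G (z' (slam F ⌊w * J⌋₊ ω)) - H (slam F ⌊w * J⌋₊ ω) 2 := ⟨_, rfl⟩
  have hQd : Q.totalDegree ≤ K := by
    rw [hQ]
    exact (totalDegree_sub _ _).trans (max_le (hG.deg _) (hL.deg _ _))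
  -- the line
  obtain ⟨a, ha⟩ : ∃ a : Option (Fin m) → ℝ, a = Function.update b (some (c 1)) (eval b (g₁ 1)) :=
    ⟨_, rfl⟩
  obtain ⟨v, hv⟩ : ∃ v : Option (Fin m) → ℝ, v = Function.update (fun _ => 0) (some (c 1)) δ :=
    ⟨_, rfl⟩
  have av1 : ∀ t : ℝ, (fun o => a o + t * v o) (some (c 1)) = eval b (g₁ 1) + t * δ := by
    intro t
    show a (some (c 1)) + t * v (some (c 1)) = _
    rw [ha, hv, Function.update_self, Function.update_self]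
  have av2 : ∀ (t : ℝ) (o : Option (Fin m)), o ≠ some (c 1) →
      (fun o => a o + t * v o) o = b o := by
    intro t o ho
    show a o + t * v o = _
    rw [ha, hv, Function.update_of_ne ho, Function.update_of_ne ho, mul_zero, add_zero]
  have n0 : (none : Option (Fin m)) ≠ some (c 1) := by simp
  have n1 : (some (c 0) : Option (Fin m)) ≠ some (c 1) := fun h => hc01 (Option.some_inj.1 h)
  have hin : ∀ t ∈ Set.Icc (0 : ℝ) 1, |eval (fun o => a o + t * v o) Q| ≤ M := by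
    intro t ht
    rw [hQ, hM]
    refine c2 _ ⟨?_, fun l hl => ?_, fun i hi hi' => ?_⟩
    · rw [av2 t none n0]
      exact tb
    · obtain rfl : l = 0 := by omega
      rw [av2 t _ n1]
      exact xb
    · obtain rfl : i = 1 := by omega
      have hgd : eval (fun o => a o + t * v o) (g₁ 1) = eval b (g₁ 1) :=
        gdep (fun o => a o + t * v o) b (av2 t none n0) (av2 t _ n1)
      rw [av1, hgd, add_sub_cancel_left, abs_mul, abs_of_pos hδ0, abs_of_nonneg ht.1]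
      show t * δ ≤ 2 / 2 ^ ⌊(s 1 - d 1) * (J : ℝ)⌋₊
      rw [← hδ]
      have := mul_le_mul_of_nonneg_right ht.2 hδ0.le
      linarith only [this]
  -- the size of the parameter
  obtain ⟨t, ht⟩ : ∃ t : ℝ, t = (b (some (c 1)) - eval b (g₁ 1)) / δ := ⟨_, rfl⟩
  have htb : (fun o => a o + t * v o) = b := by
    funext o
    by_cases ho : o = some (c 1)
    · rw [ho]
      show (fun o => a o + t * v o) (some (c 1)) = _
      rw [av1, ht, div_mul_cancel₀ _ hδ0.ne']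
      ring
    · exact av2 t o ho
  obtain ⟨X, hX⟩ : ∃ X : ℝ, X = 2 ^ (ε' * (J : ℝ)) := ⟨_, rfl⟩
  obtain ⟨Y, hY⟩ : ∃ Y : ℝ, Y = 2 ^ (φ * (J : ℝ)) := ⟨_, rfl⟩
  have hX1 : 1 ≤ X := by
    rw [hX]
    exact Real.one_le_rpow (by norm_num) (by positivity)
  have hY1 : 1 ≤ Y := by
    rw [hY]
    exact Real.one_le_rpow (by norm_num) (by positivity)
  have hgm : 1 / 2 ^ gm 1 ≤ Y * δ := by
    have k1 : (⌊p 1 * (J : ℝ)⌋₊ : ℝ) ≤ gm 1 := by exact_mod_cast hL.lo 1 (by norm_num)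
    have k2 := Nat.lt_floor_add_one (p 1 * (J : ℝ))
    have k3 : (s 1 - φ) * (J : ℝ) ≤ p 1 * J := mul_le_mul_of_nonneg_right hp hJ0
    have k4 : (⌊(s 1 - d 1) * (J : ℝ)⌋₊ : ℝ) ≤ s 1 * J := by
      rcases le_or_gt 0 ((s 1 - d 1) * (J : ℝ)) with h | h
      · refine (Nat.floor_le h).trans (mul_le_mul_of_nonneg_right (by linarith) hJ0)
      · rw [Nat.floor_of_nonpos h.le, Nat.cast_zero]
        positivity
    rw [hδ, hY]
    have e3 : (1 : ℝ) / 2 ^ gm 1 = 2 ^ (-(gm 1 : ℝ)) := by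
      rw [Real.rpow_neg (by norm_num), Real.rpow_natCast, one_div]
    have e4 : (2 : ℝ) ^ (φ * (J : ℝ)) * (2 / 2 ^ ⌊(s 1 - d 1) * (J : ℝ)⌋₊) =
        2 ^ (φ * (J : ℝ) + 1 - (⌊(s 1 - d 1) * (J : ℝ)⌋₊ : ℝ)) := by
      rw [Real.rpow_sub (by norm_num), Real.rpow_add (by norm_num), Real.rpow_natCast,
        Real.rpow_one]
      ring
    rw [e3, e4]
    exact Real.rpow_le_rpow_of_exponent_le (by norm_num) (by linarith only [k1, k2, k3, k4])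
  have hdl : (1 : ℝ) / 2 ^ ⌊(s 1 - d 1) * (J : ℝ)⌋₊ = δ / 2 := by
    rw [hδ]
    ring
  have htA : |t| ≤ 4 * (X * Y) := by
    rw [ht, abs_div, abs_of_pos hδ0, div_le_iff₀ hδ0]
    have k1 := abs_sub_le (b (some (c 1))) (eval b (H (slam F ⌊w * J⌋₊ ω) 1)) (eval b (g₁ 1))
    rw [← map_sub] at k1
    rw [← hX, hdl] at c1b
    have k2 : (2 : ℝ) / 2 ^ gm 1 = 2 * (1 / 2 ^ gm 1) := by ring
    rw [k2] at h3
    have k8 : δ ≤ Y * δ := le_mul_of_one_le_left hδ0.le hY1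
    have k3 : X * (1 / 2 ^ gm 1 + δ / 2) ≤ X * (Y * δ + Y * δ / 2) :=
      mul_le_mul_of_nonneg_left (by linarith only [hgm, k8]) (by linarith only [hX1])
    have k9 : 0 < Y * δ := mul_pos (by linarith only [hY1]) hδ0
    have k4 : Y * δ ≤ X * (Y * δ) := le_mul_of_one_le_left k9.le hX1
    have k5 : 4 * (X * Y) * δ = 4 * (X * (Y * δ)) := by ring
    rw [k5]
    have k6 : X * (Y * δ + Y * δ / 2) = 3 / 2 * (X * (Y * δ)) := by ring
    have k7 : 0 < X * (Y * δ) := mul_pos (by linarith only [hX1]) k9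
    linarith only [k1, k2, k3, k4, k6, k7, h3, c1b, hgm]
  have hA1 : 1 ≤ 4 * (X * Y) := by
    have := one_le_mul_of_one_le_of_one_le hX1 hY1
    linarith only [this]
  have key := hext Q a v M (4 * (X * Y)) t hQd hA1 htA hin
  rw [htb] at key
  rw [← hQ]
  refine key.trans ?_
  -- the constants
  have e5 : C * (4 * (X * Y)) ^ K * M = C * 4 ^ K * (X ^ (K + 1) * Y ^ K) *
      (1 / 2 ^ gm 2 + 1 / 2 ^ P) := by
    rw [hM, ← hX]
    ring
  rw [e5]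
  refine mul_le_mul_of_nonneg_right ?_ (by positivity)
  have e6 : X ^ (K + 1) = 2 ^ (ε / 4 * (J : ℝ)) := by
    rw [hX, ← Real.rpow_natCast, ← Real.rpow_mul (by norm_num), ← hεK]
    congr 1
    push_cast
    ring
  have e7 : Y ^ K ≤ 2 ^ ((K + 1) * φ * (J : ℝ)) := by
    rw [hY, ← Real.rpow_natCast, ← Real.rpow_mul (by norm_num)]
    refine Real.rpow_le_rpow_of_exponent_le (by norm_num) ?_
    have : 0 ≤ φ * (J : ℝ) := mul_nonneg hφ hJ0
    linarith only [this]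
  rw [e6]
  calc C * 4 ^ K * (2 ^ (ε / 4 * (J : ℝ)) * Y ^ K)
      ≤ 2 ^ (ε / 2 * (J : ℝ)) * (2 ^ (ε / 4 * (J : ℝ)) * 2 ^ ((K + 1) * φ * (J : ℝ))) :=
        mul_le_mul j3 (mul_le_mul_of_nonneg_left e7 (by positivity)) (by positivity)
          (by positivity)
    _ = 2 ^ (ε / 2 * (J : ℝ) + (ε / 4 * (J : ℝ) + (K + 1) * φ * (J : ℝ))) := by
        rw [Real.rpow_add (by norm_num), Real.rpow_add (by norm_num)]
    _ ≤ 2 ^ ((ε + (K + 1) * φ) * (J : ℝ)) := by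
        refine Real.rpow_le_rpow_of_exponent_le (by norm_num) ?_
        have : 0 ≤ ε * (J : ℝ) := mul_nonneg hε.le hJ0
        linarith only [this]

end Pool.TSW95
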